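import Pool.Agent.K3h12.DM.Stm

/-!
# Project DM (helper12): brick CORE2 (helper58)
-/

set_option autoImplicit false
set_option linter.unusedSectionVars false

namespace Pool.Agent.K3h58.DM

open Pool.Agent.R384 Pool.Agent.K3h12.DM
open Pool.Agent.Y715.Red Pool.Agent.Y715.Nr Pool.Agent.W237.RK
open Pool.Agent.Y715.Gi (QB KK GK i₀_mem gk_fix)

open scoped Classical

variable {i₀ : QB} (hi : i₀ ^ 2 = i₀ - 2) {m : OO} {r : QB}

theorem dich_add {φ₁ φ₂ : GK i₀ → ZMod 2} {D : Set (GK i₀)} (h1 : Dich φ₁ r D)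
    (h2 : Dich φ₂ r D) : Dich (fun σ => φ₁ σ + φ₂ σ) r D := by
  have key : ∀ a b : ZMod 2, (a = 0 ↔ b = 0) → a + b = 0 := by decide
  rcases h1 with h1 | h1
  · rcases h2 with h2 | h2
    · refine Or.inl fun σ hσ => ?_
      change φ₁ σ + φ₂ σ = 0
      rw [h1 σ hσ, h2 σ hσ, add_zero]
    · refine Or.inr fun σ hσ => ?_
      change φ₁ σ + φ₂ σ = 0 ↔ _
      rw [h1 σ hσ, zero_add]
      exact h2 σ hσ
  · rcases h2 with h2 | h2
    · refine Or.inr fun σ hσ => ?_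
      change φ₁ σ + φ₂ σ = 0 ↔ _
      rw [h2 σ hσ, add_zero]
      exact h1 σ hσ
    · exact Or.inl fun σ hσ => key _ _ ((h1 σ hσ).trans (h2 σ hσ).symm)

theorem lf_add {φ₁ φ₂ : GK i₀ → ZMod 2} (h1 : LF hi m r φ₁) (h2 : LF hi m r φ₂) :
    LF hi m r (fun σ => φ₁ σ + φ₂ σ) where
  cont := h1.cont.add h2.cont
  add σ τ := by
    rw [h1.add, h2.add]
    ring
  unr p _ ι hp hm σ hσ := by
    rw [h1.unr p ι hp hm σ hσ, h2.unr p ι hp hm σ hσ, add_zero]
  ram p _ ι hp hm := dich_add (h1.ram p ι hp hm) (h2.ram p ι hp hm)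
  lift := by
    obtain ⟨c₁, a1, a2, a3, a4⟩ := h1.lift
    obtain ⟨c₂, b1, b2, b3, b4⟩ := h2.lift
    have key : ∀ a b : ZMod 4, ∀ x y : ZMod 2, (2 * a = 0 ↔ x = 0) → (2 * b = 0 ↔ y = 0) →
        (2 * (a + b) = 0 ↔ x + y = 0) := by decide
    refine ⟨fun σ => c₁ σ + c₂ σ, a1.add b1, ?_, ?_, fun σ => key _ _ _ _ (a4 σ) (b4 σ)⟩
    · intro σ τ h
      change c₁ (σ * τ) + c₂ (σ * τ) = (c₁ σ + c₂ σ) + (c₁ τ + c₂ τ)
      rw [a2 σ τ h, b2 σ τ h]
      ring
    · intro σ τ h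
      change c₁ (σ * τ) + c₂ (σ * τ) = (c₁ σ + c₂ σ) - (c₁ τ + c₂ τ)
      rw [a3 σ τ h, b3 σ τ h]
      ring

/-- the data of Kummer theory -/
theorem data {n : ℕ} {q : Fin n → OO} (hq : ∀ i, Pr (q i)) (hinj : Function.Injective q)
    (h8 : (8 : OO) ∣ ∏ i, q i - 5) (hind : Indec q) (hm : m = ∏ i, q i ∨ m = -∏ i, q i)
    (hr : r ^ 2 = em hi m) {φ : GK i₀ → ZMod 2} (lc : LF hi m r φ) :
    ∃ (δ : OO) (s : QB), Squarefree δ ∧ s ^ 2 = em hi δ ∧ (∀ σ : GK i₀, σ s = s ↔ φ σ = 0) ∧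
      (¬ om ∣ δ ∨ ¬ (1 - om) ∣ δ → δ = 1 ∨ δ = -1 ∨ δ = m ∨ δ = -m) := by
  obtain ⟨δ, hδ, hkum⟩ := kum hi φ lc.cont lc.add
  obtain ⟨s, hs⟩ : ∃ s : QB, s ^ 2 = em hi δ := IsAlgClosed.exists_pow_nat_eq _ (by norm_num)
  have hk : ∀ σ : GK i₀, σ s = s ↔ φ σ = 0 := hkum s hs
  refine ⟨δ, s, hδ, hs, hk, fun hdiv => ?_⟩
  -- the prime divisors of `m`
  have hloc : ∀ i, (¬ q i ∣ δ ∧ Sqm (q i) δ) ∨
      ∃ δ1 m1, δ = q i * δ1 ∧ m = q i * m1 ∧ Sqm (q i) (δ1 * m1) := by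
    intro i
    obtain ⟨m1, hm1, hm1'⟩ : ∃ m1, m = q i * m1 ∧ ¬ q i ∣ m1 := by
      have h1 := Finset.mul_prod_erase Finset.univ q (Finset.mem_univ i)
      have h2 := nd_prod hq hinj (Finset.notMem_erase i Finset.univ)
      rcases hm with h | h
      · exact ⟨_, by rw [h, ← h1], h2⟩
      · refine ⟨-∏ k ∈ Finset.univ.erase i, q k, by rw [h, ← h1]; ring, ?_⟩
        rwa [dvd_neg]
    obtain ⟨l, hl, κ, hκ⟩ := exists_emb hi (hq i).prime
    rw [ι_em] at hκ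
    have hl2 : l ≠ 2 := fun h => (hq i).two ((two_of_dvd (hq i).prime (iw hi κ) hκ).1 h)
    have hlm : ‖em (iw hi κ) m‖ < 1 := (dvd_iff (iw hi κ) (hq i).prime hκ m).1 ⟨m1, hm1⟩
    exact loc_q' hi hr (hq i) hm1 hm1' hκ (lc.ram l κ hl2 hlm) hδ hs hk
  -- the prime divisors of `δ`
  have hsup : ∀ ϖ ϖ' : OO, Prime ϖ → ϖ * ϖ' = 2 → ¬ ϖ ∣ δ →
      ∀ π, Prime π → π ∣ δ → π ∣ ϖ' ∨ ∃ i, π ∣ q i := by
    intro ϖ ϖ' hϖp hϖ2 hst1 π hπ hπδ
    by_cases hπ2 : π ∣ 2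
    · rw [← hϖ2] at hπ2
      rcases hπ.dvd_or_dvd hπ2 with h | h
      · exfalso
        exact hst1 (((hπ.dvd_prime_iff_associated hϖp).1 h).symm.dvd.trans hπδ)
      · exact Or.inl h
    · by_cases hπm : π ∣ m
      · right
        have h1 : π ∣ ∏ i, q i := by
          rcases hm with h | h
          · rwa [h] at hπm
          · rwa [h, dvd_neg] at hπm
        obtain ⟨i, -, h2⟩ := (hπ.dvd_finsetProd_iff _).1 h1
        exact ⟨i, h2⟩
      · exfalso
        obtain ⟨l, hl, κ, hκ⟩ := exists_emb hi hπ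
        rw [ι_em] at hκ
        have hl2 : l ≠ 2 := fun h => hπ2 ((two_of_dvd hπ (iw hi κ) hκ).1 h)
        have h1 := lc.unr l κ hl2 ((dvd_iff (iw hi κ) hπ hκ m).not.1 hπm)
        refine not_dvd_of_fix (iw hi κ) hπ hκ hδ (s := κ s) ?_ ?_ hπδ
        · rw [← map_pow, hs, ι_em]
        · intro τ hin hτ
          exact fix_I (fun σ hσ => (hk σ).2 (h1 σ hσ)) τ hin hτ
  rcases hdiv with h | h
  · exact alg hq hinj h8 hind (Or.inr rfl) hδ (hsup om (1 - om) prime_om om_mul h) hm hloc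
  · exact alg hq hinj h8 hind (Or.inl rfl) hδ
      (hsup (1 - om) om prime_om' (by rw [mul_comm]; exact om_mul) h) hm hloc

/-- a class with rational or equal square root -/
theorem triv_of {s : QB} {φ : GK i₀ → ZMod 2} (hk : ∀ σ : GK i₀, σ s = s ↔ φ σ = 0)
    (h : (∀ σ : GK i₀, σ s = s) ∨ s = r ∨ s = -r) : Triv r φ := by
  rcases h with h | h | h
  · exact Or.inl fun σ => (hk σ).1 (h σ)
  · exact Or.inr fun σ => by rw [← hk σ, h]
  · exact Or.inr fun σ => by rw [← hk σ, h, map_neg, neg_inj]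

theorem triv_of' {δ : OO} (hr : r ^ 2 = em hi m) {s : QB} (hs : s ^ 2 = em hi δ)
    {φ : GK i₀ → ZMod 2} (hk : ∀ σ : GK i₀, σ s = s ↔ φ σ = 0) (h : δ = 1 ∨ δ = m ∨ δ = m * m) :
    Triv r φ := by
  refine triv_of hk ?_
  rcases h with h | h | h
  · left
    intro σ
    rw [h, map_one] at hs
    rcases sq_eq_one_iff.1 hs with h2 | h2
    · rw [h2, map_one]
    · rw [h2, map_neg, map_one]
  · right
    rw [h, ← hr] at hs
    exact sq_eq_sq_iff_eq_or_eq_neg.1 hs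
  · left
    intro σ
    rw [h, map_mul, ← sq] at hs
    rcases sq_eq_sq_iff_eq_or_eq_neg.1 hs with h2 | h2
    · rw [h2, gk_em]
    · rw [h2, map_neg, gk_em]

include hi in
/-- the elements of the quadratic field are in `ℚ_2` -/
theorem in_two (ι : QB →ₐ[ℚ] PadicAlgCl 2) {x : QB} (hx : x ∈ KK i₀) :
    ∃ y : ℚ_[2], algebraMap ℚ_[2] (PadicAlgCl 2) y = ι x := by
  apply fix_mem
  intro τ
  obtain ⟨a, b, rfl⟩ := KK_ex hi hx
  rw [map_add, map_mul, map_ratCast, map_ratCast, map_add, map_mul, map_ratCast, map_ratCast,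
    two_fix (iw hi ι) τ]

theorem em_mem (z : OO) : em hi z ∈ KK i₀ := by
  rw [em_apply]
  exact add_mem (intCast_mem _ _) (mul_mem (intCast_mem _ _) i₀_mem)

/-- the norm condition in `ℚ_2` -/
theorem norm_cond (hN : S_NORMG) (ι : QB →ₐ[ℚ] PadicAlgCl 2) (hm0 : m ≠ 0)
    (hr : r ^ 2 = em hi m) {φ : GK i₀ → ZMod 2} (lc : LF hi m r φ) {δ : OO} (hδ0 : δ ≠ 0) {s : QB}
    (hs : s ^ 2 = em hi δ) (hk : ∀ σ : GK i₀, σ s = s ↔ φ σ = 0)
    {m₁ δ₁ : ℚ_[2]} (hm₁ : algebraMap ℚ_[2] (PadicAlgCl 2) m₁ = em (iw hi ι) m)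
    (hδ₁ : algebraMap ℚ_[2] (PadicAlgCl 2) δ₁ = em (iw hi ι) δ) :
    ∃ x y z : ℚ_[2], (x ≠ 0 ∨ y ≠ 0 ∨ z ≠ 0) ∧ x ^ 2 = δ₁ * (y ^ 2 + m₁ * z ^ 2) := by
  obtain ⟨c, hc1, hc2, hc3, hc4⟩ := lc.lift
  have hne : ∀ {z : OO}, z ≠ 0 → (⟨em hi z, em_mem hi z⟩ : KK i₀) ≠ 0 := by
    intro z hz h
    exact em_ne hi hz (congrArg Subtype.val h)
  obtain ⟨x, y, z, hxyz, he⟩ := hN (KK i₀) QB ⟨em hi m, em_mem hi m⟩ ⟨em hi δ, em_mem hi δ⟩ r s
    (hne hm0) (hne hδ0) hr hs c hc1 hc2 hc3 (fun σ => (hc4 σ).trans (hk σ).symm)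
  obtain ⟨x1, hx1⟩ := in_two hi ι x.2
  obtain ⟨y1, hy1⟩ := in_two hi ι y.2
  obtain ⟨z1, hz1⟩ := in_two hi ι z.2
  have hinj : Function.Injective (algebraMap ℚ_[2] (PadicAlgCl 2)) :=
    (algebraMap ℚ_[2] (PadicAlgCl 2)).injective
  have hnz : ∀ {w : KK i₀} {v : ℚ_[2]}, algebraMap ℚ_[2] (PadicAlgCl 2) v = ι (w : QB) → w ≠ 0 →
      v ≠ 0 := by
    intro w v h hw hv
    rw [hv, map_zero] at h
    have h2 : (w : QB) = 0 := ι.toRingHom.injective (h.symm.trans (map_zero _).symm)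
    exact hw (Subtype.ext h2)
  refine ⟨x1, y1, z1, ?_, ?_⟩
  · rcases hxyz with h | h | h
    · exact Or.inl (hnz hx1 h)
    · exact Or.inr (Or.inl (hnz hy1 h))
    · exact Or.inr (Or.inr (hnz hz1 h))
  · apply hinj
    have he' : (x : QB) ^ 2 = em hi δ * ((y : QB) ^ 2 + em hi m * (z : QB) ^ 2) :=
      congrArg Subtype.val he
    have h3 := congrArg ι he'
    rw [map_pow, map_mul, map_add, map_mul, map_pow, map_pow, ι_em, ι_em] at h3
    rw [map_pow, map_mul, map_add, map_mul, map_pow, map_pow, hx1, hy1, hz1, hm₁, hδ₁]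
    exact h3

theorem t_CORE2 (hN : S_NORMG) (hL : S_LOC2) : S_CORE2 := by
  classical
  intro i₀ hi n q hq hinj h8 hind m hm r hr ι ι₂ hι1 _ φ₁ φ₂ lf₁ lf₂
  have h8' : (8 : OO) ∣ m - 5 ∨ (8 : OO) ∣ m + 5 := by
    rcases hm with h | h
    · left; rw [h]; exact h8
    · right
      rw [h]
      have : -∏ i, q i + 5 = -(∏ i, q i - 5) := by ring
      rw [this]
      exact (dvd_neg).2 h8
  have hm0 : m ≠ 0 := by
    have h1 : ∏ i, q i ≠ 0 := Finset.prod_ne_zero_iff.2 fun i _ => (hq i).prime.ne_zero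
    rcases hm with h | h
    · rw [h]; exact h1
    · rw [h]; exact neg_ne_zero.2 h1
  have hinjA : Function.Injective (algebraMap ℚ_[2] (PadicAlgCl 2)) :=
    (algebraMap ℚ_[2] (PadicAlgCl 2)).injective
  have hnorm : ∀ x : ℚ_[2], ‖algebraMap ℚ_[2] (PadicAlgCl 2) x‖ = ‖x‖ :=
    fun x => PadicAlgCl.norm_extends 2 x
  -- images in `ℚ_2`
  have him : ∀ z : OO, ∃ y : ℚ_[2], algebraMap ℚ_[2] (PadicAlgCl 2) y = em (iw hi ι) z := by
    intro z
    obtain ⟨y, hy⟩ := in_two hi ι (em_mem hi z)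
    exact ⟨y, by rw [hy, ι_em]⟩
  -- the prime `om`
  have hom : ‖em (iw hi ι) om‖ < 1 := by
    have h1 : em hi om = i₀ := by
      rw [em_apply hi]
      simp [om]
    rw [← ι_em hi ι, h1]
    exact hι1
  have hom2 : ‖em (iw hi ι) om‖ = 1 / 2 := by
    have h1 : ‖em (iw hi ι) om‖ * ‖em (iw hi ι) (1 - om)‖ = 1 / 2 := by
      rw [← norm_mul, ← map_mul, om_mul, map_ofNat, Pool.Agent.Y715.Gi.norm_two']
      norm_num
    have h2 : ‖em (iw hi ι) (1 - om)‖ = 1 := by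
      apply eq_one_of_not_lt
      intro h
      have h3 : (1 : PadicAlgCl 2) = em (iw hi ι) om + em (iw hi ι) (1 - om) := by
        rw [← map_add, add_sub_cancel, map_one]
      have h4 : ‖(1 : PadicAlgCl 2)‖ < 1 := by
        rw [h3]
        exact add_lt hom h
      rw [norm_one] at h4
      exact lt_irrefl _ h4
    rw [h2, mul_one] at h1
    exact h1
  have hδn : ∀ δ : OO, Squarefree δ → om ∣ δ → ‖em (iw hi ι) δ‖ = 1 / 2 := by
    rintro δ hδ ⟨t, rfl⟩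
    have h1 : ¬ om ∣ t := by
      rintro ⟨v, rfl⟩
      exact prime_om.not_isUnit (hδ om ⟨v, by ring⟩)
    rw [map_mul, norm_mul, hom2,
      eq_one_of_not_lt (iw hi ι) ((dvd_iff (iw hi ι) prime_om hom t).not.1 h1), mul_one]
  obtain ⟨m₁, hm₁⟩ := him m
  obtain ⟨z, hz, hmz⟩ := five_of h8' (iw hi ι)
  rcases hz with rfl | rfl
  · -- `m = 5` modulo eight
    have hm5 : ‖m₁ - 5‖ ≤ 1 / 8 := by
      rw [← hnorm, map_sub, hm₁]
      have : algebraMap ℚ_[2] (PadicAlgCl 2) 5 = ((5 : ℤ) : PadicAlgCl 2) := by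
        rw [map_ofNat]; norm_num
      rw [this]
      exact hmz
    have hm₁0 : m₁ ≠ 0 := by
      rintro rfl
      rw [map_zero] at hm₁
      exact em_ne (iw hi ι) hm0 hm₁.symm
    have hD : ∀ φ : GK i₀ → ZMod 2, LF hi m r φ → ∀ (δ : OO) (s : QB), Squarefree δ →
        s ^ 2 = em hi δ → (∀ σ : GK i₀, σ s = s ↔ φ σ = 0) →
        (δ = 1 ∨ δ = -1 ∨ δ = m ∨ δ = -m) → Triv r φ := by
      intro φ lf δ s hδ hs hk h
      obtain ⟨δ₁, hδ₁⟩ := him δ
      obtain ⟨x, y, z, hxyz, he⟩ := norm_cond hi hN ι hm0 hr lf hδ.ne_zero hs hk hm₁ hδ₁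
      rcases h with h | h | h | h
      · exact triv_of' hi hr hs hk (Or.inl h)
      · exfalso
        have h1 : δ₁ = -1 := by
          apply hinjA
          rw [hδ₁, h, map_neg, map_one, map_neg, map_one]
        obtain ⟨hx, hy, hz⟩ := hL.1 m₁ x y z hm5 (by rw [he, h1]; ring)
        rcases hxyz with h' | h' | h'
        · exact h' hx
        · exact h' hy
        · exact h' hz
      · exact triv_of' hi hr hs hk (Or.inr (Or.inl h))
      · exfalso
        have h1 : δ₁ = -m₁ := by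
          apply hinjA
          rw [hδ₁, h, map_neg, map_neg, hm₁]
        obtain ⟨hx, hz, hy⟩ := hL.1 m₁ x (m₁ * z) y hm5 (by rw [he, h1]; ring)
        rcases hxyz with h' | h' | h'
        · exact h' hx
        · exact h' hy
        · exact h' ((mul_eq_zero.1 hz).resolve_left hm₁0)
    obtain ⟨δ₁, s₁, hδ₁, hs₁, hk₁, hal₁⟩ := data hi hq hinj h8 hind hm hr lf₁
    obtain ⟨δ₂, s₂, hδ₂, hs₂, hk₂, hal₂⟩ := data hi hq hinj h8 hind hm hr lf₂
    have lf₃ := lf_add hi lf₁ lf₂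
    obtain ⟨δ₃, s₃, hδ₃, hs₃, hk₃, hal₃⟩ := data hi hq hinj h8 hind hm hr lf₃
    by_cases h1 : om ∣ δ₁
    · by_cases h2 : om ∣ δ₂
      · right
        right
        refine hD _ lf₃ δ₃ s₃ hδ₃ hs₃ hk₃ (hal₃ (Or.inl fun h3 => ?_))
        -- the quotient of the square roots
        have hs30 : s₃ ≠ 0 := by
          rintro rfl
          rw [zero_pow two_ne_zero] at hs₃
          exact em_ne hi hδ₃.ne_zero hs₃.symm
        have hfix : ∀ σ : GK i₀, σ (s₁ * s₂ / s₃) = s₁ * s₂ / s₃ := by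
          intro σ
          have k1 : σ s₁ = if φ₁ σ = 0 then s₁ else -s₁ := by
            split_ifs with h
            · exact (hk₁ σ).2 h
            · exact (rt_or hi hs₁ σ).resolve_left fun h' => h ((hk₁ σ).1 h')
          have k2 : σ s₂ = if φ₂ σ = 0 then s₂ else -s₂ := by
            split_ifs with h
            · exact (hk₂ σ).2 h
            · exact (rt_or hi hs₂ σ).resolve_left fun h' => h ((hk₂ σ).1 h')
          have k3 : σ s₃ = if φ₁ σ + φ₂ σ = 0 then s₃ else -s₃ := by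
            split_ifs with h
            · exact (hk₃ σ).2 h
            · exact (rt_or hi hs₃ σ).resolve_left fun h' => h ((hk₃ σ).1 h')
          have key : ∀ a b : ZMod 2, (a + b = 0 ↔ (a = 0 ↔ b = 0)) := by decide
          rw [map_div₀, map_mul, k1, k2, k3]
          by_cases ha : φ₁ σ = 0
          · by_cases hb : φ₂ σ = 0
            · rw [if_pos ha, if_pos hb, if_pos ((key _ _).2 ⟨fun _ => hb, fun _ => ha⟩)]
            · rw [if_pos ha, if_neg hb, if_neg (fun h => hb (((key _ _).1 h).1 ha)), mul_neg,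
                neg_div_neg_eq]
          · by_cases hb : φ₂ σ = 0
            · rw [if_neg ha, if_pos hb, if_neg (fun h => ha (((key _ _).1 h).2 hb)), neg_mul,
                neg_div_neg_eq]
            · rw [if_neg ha, if_neg hb,
                if_pos ((key _ _).2 ⟨fun h => absurd h ha, fun h => absurd h hb⟩), neg_mul_neg]
        obtain ⟨y, hy⟩ := fix_mem (x := ι (s₁ * s₂ / s₃))
          (fun τ => fix_D (fun σ _ => hfix σ) τ (two_fix (iw hi ι) τ))
        have hn : ‖y‖ ^ 2 = 1 / 2 := by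
          rw [← hnorm, hy, ← norm_pow, ← map_pow, div_pow, mul_pow, hs₁, hs₂, hs₃, map_div₀,
            map_mul, ι_em, ι_em, ι_em, norm_div, norm_mul, hδn δ₁ hδ₁ h1, hδn δ₂ hδ₂ h2,
            hδn δ₃ hδ₃ h3]
          norm_num
        have hy0 : y ≠ 0 := by
          rintro rfl
          rw [norm_zero] at hn
          norm_num at hn
        rw [Padic.norm_eq_zpow_neg_valuation hy0] at hn
        have h5 : ((2 : ℕ) : ℝ) ^ (2 * -y.valuation) = ((2 : ℕ) : ℝ) ^ (-1 : ℤ) := by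
          rw [mul_comm, zpow_mul, zpow_ofNat, hn]
          norm_num
        have h6 := zpow_right_injective₀ (by norm_num : (0 : ℝ) < ((2 : ℕ) : ℝ)) (by norm_num) h5
        omega
      · exact Or.inr (Or.inl (hD φ₂ lf₂ δ₂ s₂ hδ₂ hs₂ hk₂ (hal₂ (Or.inl h2))))
    · exact Or.inl (hD φ₁ lf₁ δ₁ s₁ hδ₁ hs₁ hk₁ (hal₁ (Or.inl h1)))
  · -- `m = 3` modulo eight
    have hm3 : ‖m₁ - 3‖ ≤ 1 / 8 := by
      rw [← hnorm, map_sub, hm₁]
      have h1 : em (iw hi ι) m - algebraMap ℚ_[2] (PadicAlgCl 2) 3 =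
          (em (iw hi ι) m - ((-5 : ℤ) : PadicAlgCl 2)) + (-8) := by
        rw [map_ofNat]
        push_cast
        ring
      rw [h1]
      refine add_le hmz ?_
      have h8n : ‖(8 : PadicAlgCl 2)‖ = 1 / 8 := by
        have e : (8 : PadicAlgCl 2) = 2 ^ 3 := by norm_num
        rw [e, norm_pow, Pool.Agent.Y715.Gi.norm_two']
        norm_num
      rw [norm_neg, h8n]
    have hnd : ∀ φ : GK i₀ → ZMod 2, LF hi m r φ → ∀ (δ : OO) (s : QB), Squarefree δ →
        s ^ 2 = em hi δ → (∀ σ : GK i₀, σ s = s ↔ φ σ = 0) → ¬ om ∣ δ := by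
      intro φ lf δ s hδ hs hk h
      obtain ⟨δ₁, hδ₁⟩ := him δ
      obtain ⟨x, y, z, hxyz, he⟩ := norm_cond hi hN ι hm0 hr lf hδ.ne_zero hs hk hm₁ hδ₁
      obtain ⟨hx, hy, hz⟩ := hL.2 m₁ δ₁ x y z hm3 (by rw [← hnorm, hδ₁]; exact hδn δ hδ h) he
      rcases hxyz with h' | h' | h'
      · exact h' hx
      · exact h' hy
      · exact h' hz
    obtain ⟨δ₁, s₁, hδ₁, hs₁, hk₁, hal₁⟩ := data hi hq hinj h8 hind hm hr lf₁
    obtain ⟨δ₂, s₂, hδ₂, hs₂, hk₂, hal₂⟩ := data hi hq hinj h8 hind hm hr lf₂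
    have a1 := hal₁ (Or.inl (hnd φ₁ lf₁ δ₁ s₁ hδ₁ hs₁ hk₁))
    have a2 := hal₂ (Or.inl (hnd φ₂ lf₂ δ₂ s₂ hδ₂ hs₂ hk₂))
    by_cases b1 : δ₁ = 1 ∨ δ₁ = m
    · left
      refine triv_of' hi hr hs₁ hk₁ ?_
      rcases b1 with h | h
      · exact Or.inl h
      · exact Or.inr (Or.inl h)
    · by_cases b2 : δ₂ = 1 ∨ δ₂ = m
      · right
        left
        refine triv_of' hi hr hs₂ hk₂ ?_
        rcases b2 with h | h
        · exact Or.inl h
        · exact Or.inr (Or.inl h)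
      · right
        right
        push Not at b1 b2
        have c1 : δ₁ = -1 ∨ δ₁ = -m := by
          rcases a1 with h | h | h | h
          · exact absurd h b1.1
          · exact Or.inl h
          · exact absurd h b1.2
          · exact Or.inr h
        have c2 : δ₂ = -1 ∨ δ₂ = -m := by
          rcases a2 with h | h | h | h
          · exact absurd h b2.1
          · exact Or.inl h
          · exact absurd h b2.2
          · exact Or.inr h
        have hs12 : (s₁ * s₂) ^ 2 = em hi (δ₁ * δ₂) := by rw [mul_pow, hs₁, hs₂, map_mul]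
        have hs10 : s₁ ≠ 0 := by
          rintro rfl
          rw [zero_pow two_ne_zero] at hs₁
          exact em_ne hi hδ₁.ne_zero hs₁.symm
        have hs20 : s₂ ≠ 0 := by
          rintro rfl
          rw [zero_pow two_ne_zero] at hs₂
          exact em_ne hi hδ₂.ne_zero hs₂.symm
        have hs120 : s₁ * s₂ ≠ 0 := mul_ne_zero hs10 hs20
        have hneg : ∀ x : QB, x ≠ 0 → -x ≠ x := by
          intro x hx h
          exact hx (self_eq_neg.1 h.symm)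
        have hk12 : ∀ σ : GK i₀, σ (s₁ * s₂) = s₁ * s₂ ↔ φ₁ σ + φ₂ σ = 0 := by
          intro σ
          have k1 : σ s₁ = if φ₁ σ = 0 then s₁ else -s₁ := by
            split_ifs with h
            · exact (hk₁ σ).2 h
            · exact (rt_or hi hs₁ σ).resolve_left fun h' => h ((hk₁ σ).1 h')
          have k2 : σ s₂ = if φ₂ σ = 0 then s₂ else -s₂ := by
            split_ifs with h
            · exact (hk₂ σ).2 h
            · exact (rt_or hi hs₂ σ).resolve_left fun h' => h ((hk₂ σ).1 h')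
          have key : ∀ a b : ZMod 2, (a + b = 0 ↔ (a = 0 ↔ b = 0)) := by decide
          rw [key, map_mul, k1, k2]
          by_cases ha : φ₁ σ = 0 <;> by_cases hb : φ₂ σ = 0 <;>
            simp [ha, hb, hneg _ hs120]
        refine triv_of' hi hr hs12 hk12 ?_
        rcases c1 with h | h <;> rcases c2 with h' | h' <;> rw [h, h']
        · left; ring
        · right; left; ring
        · right; left; ring
        · right; right; ring

end Pool.Agent.K3h58.DM
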