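import Mathlib
import Pool.Agent.K3h15.DM.Stm

set_option autoImplicit false

/-!
# Discriminants and b-functions: bricks V1 and V2
-/

namespace Pool.Agent.K3h58.DM

open MvPolynomial Pool.Agent.K3h15.DM

/-- the chain rule -/
theorem chain {n : ℕ} (f : Fin n → Rx n) (j : Fin n) (q : Rx n) :
    pderiv j (aeval f q) = ∑ i, aeval f (pderiv i q) * pderiv j (f i) := by
  induction q using MvPolynomial.induction_on with
  | C a => simp [algebraMap_eq]
  | add p q hp hq => rw [map_add, map_add, hp, hq, ← Finset.sum_add_distrib]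
                     exact Finset.sum_congr rfl fun i _ => by rw [map_add, map_add, add_mul]
  | mul_X p k hp =>
    have h1 : ∀ i : Fin n, aeval f (pderiv i (p * X k)) * pderiv j (f i) =
        (aeval f (pderiv i p) * pderiv j (f i)) * f k +
          (if i = k then aeval f p * pderiv j (f i) else 0) := by
      intro i
      rw [Derivation.leibniz, pderiv_X]
      simp only [Pi.single_apply, smul_eq_mul, map_add, map_mul, aeval_X]
      by_cases h : k = i
      · subst h
        simp
        ring
      · rw [if_neg h, if_neg (fun h' => h h'.symm)]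
        simp
        ring
    rw [Finset.sum_congr rfl fun i _ => h1 i, Finset.sum_add_distrib, ← Finset.sum_mul, ← hp,
      Finset.sum_ite_eq' Finset.univ k, if_pos (Finset.mem_univ _), map_mul, aeval_X,
      Derivation.leibniz]
    simp only [smul_eq_mul]
    ring

theorem pd_comm {n : ℕ} (i j : Fin n) (p : Rx n) :
    pderiv i (pderiv j p) = pderiv j (pderiv i p) := by
  induction p using MvPolynomial.induction_on with
  | C a => simp
  | add p q hp hq => simp [hp, hq]
  | mul_X p k hp =>
    have h : ∀ a b : Fin n, pderiv a (pderiv b (X k : Rx n)) = 0 := by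
      intro a b
      rw [pderiv_X]
      by_cases hb : b = k
      · subst hb; simp
      · simp [Ne.symm hb]
    simp only [Derivation.leibniz, map_add, smul_eq_mul, hp, h]
    ring

theorem rename_dd {n : ℕ} {p : Rx n} (hp : Sym p) (i j : Fin n) :
    rename (Equiv.swap i j) (X i * pderiv i p) = X j * pderiv j p := by
  have h1 := pderiv_rename (f := Equiv.swap i j) (Equiv.swap i j).injective i p
  rw [map_mul, rename_X, ← h1, hp, Equiv.swap_apply_left]

/-- the defining equation of the divided differences for symmetric polynomials -/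
theorem dd_eq {n : ℕ} {DD : Fin n → Fin n → (Rx n →ₗ[ℂ] Rx n)} (hD : IsDD DD) {p : Rx n}
    (hp : Sym p) {i j : Fin n} (hij : i ≠ j) :
    (X i - X j) * DD i j (X i * pderiv i p) = X i * pderiv i p - X j * pderiv j p := by
  rw [hD i j hij, rename_dd hp]

/-- its derivative -/
theorem dd_der {n : ℕ} {DD : Fin n → Fin n → (Rx n →ₗ[ℂ] Rx n)} (hD : IsDD DD) {p : Rx n}
    (hp : Sym p) {i j : Fin n} (hij : i ≠ j) :
    DD i j (X i * pderiv i p) + (X i - X j) * pderiv i (DD i j (X i * pderiv i p)) =
      pderiv i p + X i * pderiv i (pderiv i p) - X j * pderiv i (pderiv j p) := by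
  have h := congrArg (pderiv i) (dd_eq hD hp hij)
  rw [map_sub, Derivation.leibniz, Derivation.leibniz, Derivation.leibniz, map_sub, pderiv_X,
    pderiv_X] at h
  simp only [Pi.single_apply, smul_eq_mul, if_neg hij.symm, if_true, sub_zero, mul_one, mul_zero,
    add_zero] at h
  linear_combination h

theorem X_sub_ne {n : ℕ} {i j : Fin n} (h : i ≠ j) : (X i - X j : Rx n) ≠ 0 :=
  sub_ne_zero.2 fun h' => h (X_injective h')

theorem t_V1 : StmV1 := by
  intro n DD hD m hm hmn κ α hκ h0 p hp hz
  set f : Fin n → Rx n := fun i : Fin n => if (i : ℕ) < m then (X ⟨0, h0⟩ : Rx n) else X i with hf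
  have f1 : ∀ i : Fin n, (i : ℕ) < m → f i = X ⟨0, h0⟩ := fun i hi => by simp [hf, hi]
  have f2 : ∀ i : Fin n, ¬ (i : ℕ) < m → f i = X i := fun i hi => by simp [hf, hi]
  -- derivatives of the restriction
  have c2 : ∀ (j : Fin n), ¬ (j : ℕ) < m → ∀ q : Rx n,
      pderiv j (aeval f q) = aeval f (pderiv j q) := by
    intro j hj q
    rw [chain, Finset.sum_eq_single j]
    · rw [f2 j hj, pderiv_X_self, mul_one]
    · intro i _ hij
      by_cases hi : (i : ℕ) < m
      · rw [f1 i hi, pderiv_X_of_ne, mul_zero]
        intro h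
        apply hj
        rw [← h]
        change 0 < m
        omega
      · rw [f2 i hi, pderiv_X_of_ne hij, mul_zero]
    · intro h
      exact absurd (Finset.mem_univ _) h
  have c1 : ∀ q : Rx n, pderiv ⟨0, h0⟩ (aeval f q) =
      ∑ i ∈ Finset.univ.filter (fun i : Fin n => (i : ℕ) < m), aeval f (pderiv i q) := by
    intro q
    rw [chain, Finset.sum_filter]
    refine Finset.sum_congr rfl fun i _ => ?_
    by_cases hi : (i : ℕ) < m
    · rw [if_pos hi, f1 i hi, pderiv_X_self, mul_one]
    · rw [if_neg hi, f2 i hi, pderiv_X_of_ne, mul_zero]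
      intro h
      apply hi
      rw [h]
      change 0 < m
      omega
  -- all first derivatives restrict to zero
  have hren : ∀ (i k : Fin n), (i : ℕ) < m → (k : ℕ) < m → ∀ q : Rx n,
      aeval f (rename (Equiv.swap i k) q) = aeval f q := by
    intro i k hi hk q
    rw [aeval_rename]
    congr 1
    congr 1
    funext l
    rw [Function.comp_apply]
    by_cases hl : l = i
    · subst hl
      rw [Equiv.swap_apply_left, f1 _ hk, f1 _ hi]
    · by_cases hl2 : l = k
      · subst hl2
        rw [Equiv.swap_apply_right, f1 _ hk, f1 _ hi]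
      · rw [Equiv.swap_apply_of_ne_of_ne hl hl2]
  have hsame : ∀ (i k : Fin n), (i : ℕ) < m → (k : ℕ) < m →
      aeval f (pderiv i p) = aeval f (pderiv k p) := by
    intro i k hi hk
    have h1 := pderiv_rename (f := Equiv.swap i k) (Equiv.swap i k).injective i p
    rw [hp, Equiv.swap_apply_left] at h1
    rw [h1, hren i k hi hk]
  have hcard : (Finset.univ.filter (fun i : Fin n => (i : ℕ) < m)).card = m := by
    rw [Fin.card_filter_val_lt, min_eq_right hmn]
  have z1 : ∀ i : Fin n, aeval f (pderiv i p) = 0 := by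
    intro i
    by_cases hi : (i : ℕ) < m
    · have h1 := c1 p
      rw [hz, map_zero, Finset.sum_congr rfl fun k hk =>
        hsame k i (Finset.mem_filter.1 hk).2 hi, Finset.sum_const, hcard, nsmul_eq_mul] at h1
      rcases mul_eq_zero.1 h1.symm with h2 | h2
      · exfalso
        have : (m : Rx n) ≠ 0 := Nat.cast_ne_zero.2 (by omega)
        exact this h2
      · exact h2
    · rw [← c2 i hi, hz, map_zero]
  -- the divided differences
  have d0 : ∀ i j : Fin n, i ≠ j → f i ≠ f j → aeval f (DD i j (X i * pderiv i p)) = 0 := by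
    intro i j hij hf
    have h1 := congrArg (aeval f) (dd_eq hD hp hij)
    generalize DD i j (X i * pderiv i p) = D at h1 ⊢
    rw [map_mul, map_sub, map_sub, map_mul, map_mul, z1, z1, aeval_X, aeval_X, mul_zero, mul_zero,
      sub_zero] at h1
    exact (mul_eq_zero.1 h1).resolve_left (sub_ne_zero.2 hf)
  have d1 : ∀ i j : Fin n, i ≠ j → (i : ℕ) < m → (j : ℕ) < m →
      aeval f (DD i j (X i * pderiv i p)) =
        X ⟨0, h0⟩ * (aeval f (pderiv i (pderiv i p)) - aeval f (pderiv j (pderiv i p))) := by
    intro i j hij hi hj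
    have h1 := congrArg (aeval f) (dd_der hD hp hij)
    generalize DD i j (X i * pderiv i p) = D at h1 ⊢
    rw [map_add, map_mul, map_sub, aeval_X, aeval_X, f1 i hi, f1 j hj, sub_self, zero_mul,
      add_zero, map_sub, map_add, z1, zero_add, map_mul, map_mul, aeval_X, aeval_X, f1 i hi,
      f1 j hj, pd_comm i j p] at h1
    rw [h1, mul_sub]
  have fne : ∀ i j : Fin n, i ≠ j → ¬ ((i : ℕ) < m ∧ (j : ℕ) < m) → f i ≠ f j := by
    intro i j hij h
    by_cases hi : (i : ℕ) < m
    · have hj : ¬ (j : ℕ) < m := fun hj => h ⟨hi, hj⟩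
      rw [f1 i hi, f2 j hj]
      intro h'
      have := X_injective h'
      apply hj
      rw [← this]
      change 0 < m
      omega
    · rw [f2 i hi]
      by_cases hj : (j : ℕ) < m
      · rw [f1 j hj]
        intro h'
        have := X_injective h'
        apply hi
        rw [this]
        change 0 < m
        omega
      · rw [f2 j hj]
        exact fun h' => hij (X_injective h')
  -- the sum
  have hrow : ∀ i : Fin n, aeval f (X i * pderiv i (pderiv i p) + (α + 1) • pderiv i p) +
      κ • ∑ j ∈ Finset.univ.erase i, aeval f (DD i j (X i * pderiv i p)) = 0 := by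
    intro i
    rw [map_add, map_smul, z1, smul_zero, add_zero, map_mul, aeval_X]
    by_cases hi : (i : ℕ) < m
    · have h1 : ∑ j ∈ Finset.univ.erase i, aeval f (DD i j (X i * pderiv i p)) =
          ∑ j ∈ (Finset.univ.filter (fun i : Fin n => (i : ℕ) < m)).erase i,
            X ⟨0, h0⟩ * (aeval f (pderiv i (pderiv i p)) - aeval f (pderiv j (pderiv i p))) := by
        have hsub : (Finset.univ.filter (fun i : Fin n => (i : ℕ) < m)).erase i ⊆
            Finset.univ.erase i := Finset.erase_subset_erase _ (Finset.subset_univ _)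
        rw [← Finset.sum_subset hsub]
        · refine Finset.sum_congr rfl fun j hj => ?_
          rw [Finset.mem_erase, Finset.mem_filter] at hj
          exact d1 i j (Ne.symm hj.1) hi hj.2.2
        · intro j hj hj'
          rw [Finset.mem_erase] at hj
          refine d0 i j (Ne.symm hj.1) (fne i j (Ne.symm hj.1) fun h => hj' ?_)
          rw [Finset.mem_erase, Finset.mem_filter]
          exact ⟨hj.1, Finset.mem_univ _, h.2⟩
      have hmem : i ∈ Finset.univ.filter (fun i : Fin n => (i : ℕ) < m) :=
        Finset.mem_filter.2 ⟨Finset.mem_univ _, hi⟩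
      have h2 : ∑ j ∈ (Finset.univ.filter (fun i : Fin n => (i : ℕ) < m)).erase i,
          (aeval f (pderiv i (pderiv i p)) - aeval f (pderiv j (pderiv i p))) =
          (m : Rx n) * aeval f (pderiv i (pderiv i p)) := by
        have h3 := c1 (pderiv i p)
        rw [z1, map_zero, ← Finset.add_sum_erase _ _ hmem] at h3
        rw [Finset.sum_sub_distrib, Finset.sum_const, Finset.card_erase_of_mem hmem, hcard,
          nsmul_eq_mul]
        have h4 : ((m - 1 : ℕ) : Rx n) = (m : Rx n) - 1 := by
          rw [Nat.cast_sub (by omega), Nat.cast_one]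
        rw [h4]
        linear_combination h3
      rw [h1, ← Finset.mul_sum, h2, f1 i hi, smul_eq_C_mul]
      have h5 : (C κ : Rx n) * (m : Rx n) = -1 := by
        have h6 : κ * m = -1 := by linear_combination hκ
        have h7 : (m : Rx n) = C (m : ℂ) := (map_natCast C m).symm
        rw [h7, ← C_mul, h6, C_neg, C_1]
      linear_combination (X ⟨0, h0⟩ * aeval f (pderiv i (pderiv i p))) * h5
    · rw [← c2 i hi, z1, map_zero, mul_zero, zero_add, Finset.sum_eq_zero, smul_zero]
      intro j hj
      rw [Finset.mem_erase] at hj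
      exact d0 i j (Ne.symm hj.1) (fne i j (Ne.symm hj.1) fun h => hi h.1)
  have hL : aeval f (L DD κ α p) = ∑ i : Fin n,
      (aeval f (X i * pderiv i (pderiv i p) + (α + 1) • pderiv i p) +
      κ • ∑ j ∈ Finset.univ.erase i, aeval f (DD i j (X i * pderiv i p))) := by
    rw [L, map_add, map_smul, map_sum, map_sum, Finset.smul_sum, ← Finset.sum_add_distrib]
    refine Finset.sum_congr rfl fun i _ => ?_
    rw [map_sum]
  rw [hL]
  exact Finset.sum_eq_zero fun i _ => hrow i

theorem t_V2 : StmV2 := by
  intro n DD hD m hm hmn κ α hκ p hp hz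
  set f : Fin n → Rx n := fun i : Fin n => if (i : ℕ) < m then (0 : Rx n) else X i with hf
  have f1 : ∀ i : Fin n, (i : ℕ) < m → f i = 0 := fun i hi => by simp [hf, hi]
  have f2 : ∀ i : Fin n, ¬ (i : ℕ) < m → f i = X i := fun i hi => by simp [hf, hi]
  have c2 : ∀ (j : Fin n), ¬ (j : ℕ) < m → ∀ q : Rx n,
      pderiv j (aeval f q) = aeval f (pderiv j q) := by
    intro j hj q
    rw [chain, Finset.sum_eq_single j]
    · rw [f2 j hj, pderiv_X_self, mul_one]
    · intro i _ hij
      by_cases hi : (i : ℕ) < m
      · rw [f1 i hi, map_zero, mul_zero]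
      · rw [f2 i hi, pderiv_X_of_ne hij, mul_zero]
    · intro h
      exact absurd (Finset.mem_univ _) h
  have z1 : ∀ i : Fin n, ¬ (i : ℕ) < m → aeval f (pderiv i p) = 0 := fun i hi => by
    rw [← c2 i hi, hz, map_zero]
  have fz : ∀ i : Fin n, f i * aeval f (pderiv i p) = 0 := by
    intro i
    by_cases hi : (i : ℕ) < m
    · rw [f1 i hi, zero_mul]
    · rw [z1 i hi, mul_zero]
  have d0 : ∀ i j : Fin n, i ≠ j → f i ≠ f j → aeval f (DD i j (X i * pderiv i p)) = 0 := by
    intro i j hij hf
    have h1 := congrArg (aeval f) (dd_eq hD hp hij)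
    generalize DD i j (X i * pderiv i p) = D at h1 ⊢
    rw [map_mul, map_sub, map_sub, map_mul, map_mul, aeval_X, aeval_X, fz, fz, sub_zero] at h1
    exact (mul_eq_zero.1 h1).resolve_left (sub_ne_zero.2 hf)
  have d1 : ∀ i j : Fin n, i ≠ j → (i : ℕ) < m → (j : ℕ) < m →
      aeval f (DD i j (X i * pderiv i p)) = aeval f (pderiv i p) := by
    intro i j hij hi hj
    have h1 := congrArg (aeval f) (dd_der hD hp hij)
    generalize DD i j (X i * pderiv i p) = D at h1 ⊢
    rw [map_add, map_mul, map_sub, aeval_X, aeval_X, f1 i hi, f1 j hj, sub_self, zero_mul,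
      add_zero, map_sub, map_add, map_mul, map_mul, aeval_X, aeval_X, f1 i hi,
      f1 j hj, zero_mul, zero_mul, add_zero, sub_zero] at h1
    exact h1
  have fne : ∀ i j : Fin n, i ≠ j → ¬ ((i : ℕ) < m ∧ (j : ℕ) < m) → f i ≠ f j := by
    intro i j hij h
    by_cases hi : (i : ℕ) < m
    · have hj : ¬ (j : ℕ) < m := fun hj => h ⟨hi, hj⟩
      rw [f1 i hi, f2 j hj]
      exact (X_ne_zero j).symm
    · rw [f2 i hi]
      by_cases hj : (j : ℕ) < m
      · rw [f1 j hj]
        exact X_ne_zero i
      · rw [f2 j hj]
        exact fun h' => hij (X_injective h')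
  have hrow : ∀ i : Fin n, aeval f (X i * pderiv i (pderiv i p) + (α + 1) • pderiv i p) +
      κ • ∑ j ∈ Finset.univ.erase i, aeval f (DD i j (X i * pderiv i p)) = 0 := by
    intro i
    rw [map_add, map_smul, map_mul, aeval_X]
    by_cases hi : (i : ℕ) < m
    · have hmem : i ∈ Finset.univ.filter (fun i : Fin n => (i : ℕ) < m) :=
        Finset.mem_filter.2 ⟨Finset.mem_univ _, hi⟩
      have hcard : (Finset.univ.filter (fun i : Fin n => (i : ℕ) < m)).card = m := by
        rw [Fin.card_filter_val_lt, min_eq_right hmn]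
      have h1 : ∑ j ∈ Finset.univ.erase i, aeval f (DD i j (X i * pderiv i p)) =
          ((m - 1 : ℕ) : Rx n) * aeval f (pderiv i p) := by
        have hsub : (Finset.univ.filter (fun i : Fin n => (i : ℕ) < m)).erase i ⊆
            Finset.univ.erase i := Finset.erase_subset_erase _ (Finset.subset_univ _)
        have hs : ∑ j ∈ (Finset.univ.filter (fun i : Fin n => (i : ℕ) < m)).erase i,
            aeval f (DD i j (X i * pderiv i p)) = ((m - 1 : ℕ) : Rx n) * aeval f (pderiv i p) := by
          rw [Finset.sum_congr rfl fun j hj => d1 i j (Ne.symm (Finset.mem_erase.1 hj).1) hi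
            (Finset.mem_filter.1 (Finset.mem_erase.1 hj).2).2, Finset.sum_const,
            Finset.card_erase_of_mem hmem, hcard, nsmul_eq_mul]
        rw [← hs]
        symm
        apply Finset.sum_subset hsub
        intro j hj hj'
        rw [Finset.mem_erase] at hj
        refine d0 i j (Ne.symm hj.1) (fne i j (Ne.symm hj.1) fun h => hj' ?_)
        rw [Finset.mem_erase, Finset.mem_filter]
        exact ⟨hj.1, Finset.mem_univ _, h.2⟩
      rw [h1, f1 i hi, zero_mul, zero_add, smul_eq_C_mul, smul_eq_C_mul]
      have h5 : (C (α + 1) : Rx n) + C κ * ((m - 1 : ℕ) : Rx n) = 0 := by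
        have h7 : ((m - 1 : ℕ) : Rx n) = C ((m - 1 : ℕ) : ℂ) := (map_natCast C (m - 1)).symm
        have h8 : ((m - 1 : ℕ) : ℂ) = (m : ℂ) - 1 := by
          rw [Nat.cast_sub hm, Nat.cast_one]
        rw [h7, ← C_mul, ← C_add, h8, hκ, C_0]
      linear_combination (aeval f (pderiv i p)) * h5
    · rw [← c2 i hi, z1 i hi, map_zero, mul_zero, smul_zero, zero_add, zero_add,
        Finset.sum_eq_zero, smul_zero]
      intro j hj
      rw [Finset.mem_erase] at hj
      exact d0 i j (Ne.symm hj.1) (fne i j (Ne.symm hj.1) fun h => hi h.1)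
  have hL : aeval f (L DD κ α p) = ∑ i : Fin n,
      (aeval f (X i * pderiv i (pderiv i p) + (α + 1) • pderiv i p) +
      κ • ∑ j ∈ Finset.univ.erase i, aeval f (DD i j (X i * pderiv i p))) := by
    rw [L, map_add, map_smul, map_sum, map_sum, Finset.smul_sum, ← Finset.sum_add_distrib]
    refine Finset.sum_congr rfl fun i _ => ?_
    rw [map_sum]
  rw [hL]
  exact Finset.sum_eq_zero fun i _ => hrow i

end Pool.Agent.K3h58.DM
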